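import Mathlib

/-!
# Dense analytic subgroups of the real line are not plastic

A proper analytic subgroup `G` of `ℝ` is covered by countably many compact null sets (Laczkovich).
If `G` is dense, then a fusion argument gives a bijection of `G` onto itself which is locally a
translation by elements of `G`, which does not increase distances, and which is not an isometry.
-/

set_option autoImplicit false

open Set Filter TopologicalSpace MeasureTheory

namespace Pool.Agent.Results.MP_4fc6a2_gt.NotPlastic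

/-- A metric space is plastic if every non-expansive bijection onto itself is an isometry. -/
def Plastic (X : Type) [MetricSpace X] : Prop :=
  ∀ f : X → X, Function.Bijective f → (∀ x y, dist (f x) (f y) ≤ dist x y) →
    ∀ x y, dist (f x) (f y) = dist x y

/-! ### Chains of nodes

A node `(x, c)` says that the map is the translation `x ↦ x - c` at the point `x`. -/

/-- The node `p` is before the node `q`. -/
def R (p q : ℝ × ℝ) : Prop := p.2 ≤ q.2 ∧ p.1 - p.2 < q.1 - q.2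

theorem R.trans {p q r : ℝ × ℝ} (h : R p q) (h' : R q r) : R p r :=
  ⟨h.1.trans h'.1, h.2.trans h'.2⟩

theorem R.fst {p q : ℝ × ℝ} (h : R p q) : p.1 < q.1 := by
  have h1 := h.1
  have h2 := h.2
  linarith

/-- Chains of nodes. -/
def Ch (T : Set (ℝ × ℝ)) : Prop := ∀ p ∈ T, ∀ q ∈ T, p = q ∨ R p q ∨ R q p

/-- The point `x` lies between two nodes with the translation `c`. -/
def Cov (T : Set (ℝ × ℝ)) (x c : ℝ) : Prop :=
  ∃ p ∈ T, ∃ q ∈ T, p.2 = c ∧ q.2 = c ∧ p.1 ≤ x ∧ x ≤ q.1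

theorem Cov.mono {T T' : Set (ℝ × ℝ)} {x c : ℝ} (h : Cov T x c) (hT : T ⊆ T') : Cov T' x c := by
  obtain ⟨p, hp, q, hq, h⟩ := h
  exact ⟨p, hT hp, q, hT hq, h⟩

theorem Cov.le_of_lt {T : Set (ℝ × ℝ)} (hT : Ch T) {x c x' c' : ℝ} (h : Cov T x c)
    (h' : Cov T x' c') (hx : x ≤ x') : c ≤ c' := by
  obtain ⟨p, hp, q, hq, hpc, hqc, hpx, hxq⟩ := h
  obtain ⟨p', hp', q', hq', hpc', hqc', hpx', hxq'⟩ := h'
  by_contra hcc
  push Not at hcc
  -- `q'` is before `p`
  rcases hT p hp q' hq' with h | h | h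
  · rw [h] at hpc; linarith
  · have := h.1; linarith
  · have := h.fst
    linarith

theorem Cov.lt {T : Set (ℝ × ℝ)} (hT : Ch T) {x c x' c' : ℝ} (h : Cov T x c)
    (h' : Cov T x' c') (hx : x < x') : x - c < x' - c' := by
  have hcc := h.le_of_lt hT h' hx.le
  rcases hcc.eq_or_lt with heq | hlt
  · rw [heq]; linarith
  obtain ⟨p, hp, q, hq, hpc, hqc, hpx, hxq⟩ := h
  obtain ⟨p', hp', q', hq', hpc', hqc', hpx', hxq'⟩ := h'
  rcases hT q hq p' hp' with h | h | h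
  · rw [h] at hqc; linarith
  · have := h.2
    linarith
  · have := h.1; linarith

theorem Cov.unique {T : Set (ℝ × ℝ)} (hT : Ch T) {x c c' : ℝ} (h : Cov T x c)
    (h' : Cov T x c') : c = c' :=
  le_antisymm (h.le_of_lt hT h' le_rfl) (h'.le_of_lt hT h le_rfl)

/-- The final step: from a chain of nodes to the map. -/
theorem not_plastic_of_chain (G : AddSubgroup ℝ) (T : Set (ℝ × ℝ)) (hT : Ch T)
    (hTG : ∀ x c, Cov T x c → c ∈ G) (hX : ∀ x ∈ G, ∃ c, Cov T x c)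
    (hY : ∀ y ∈ G, ∃ c, Cov T (y + c) c) {a b ca cb : ℝ} (ha : a ∈ G) (hb : b ∈ G)
    (hca : Cov T a ca) (hcb : Cov T b cb) (hab : a < b) (hc : ca < cb) : ¬ Plastic G := by
  intro hP
  choose! c hcov using hX
  let f : G → G := fun x => ⟨x - c x, G.sub_mem x.2 (hTG _ _ (hcov x x.2))⟩
  have hlt : ∀ x y : G, (x : ℝ) < y → (f x : ℝ) < f y ∧ (f y : ℝ) - f x ≤ y - x := by
    intro x y hxy
    refine ⟨(hcov x x.2).lt hT (hcov y y.2) hxy, ?_⟩
    have := (hcov x x.2).le_of_lt hT (hcov y y.2) hxy.le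
    show (y : ℝ) - c y - (x - c x) ≤ y - x
    linarith
  have hinj : Function.Injective f := by
    intro x y hxy
    rcases lt_trichotomy (x : ℝ) y with h | h | h
    · have := (hlt x y h).1; rw [hxy] at this; exact absurd this (lt_irrefl _)
    · exact Subtype.ext h
    · have := (hlt y x h).1; rw [hxy] at this; exact absurd this (lt_irrefl _)
  have hsurj : Function.Surjective f := by
    rintro ⟨y, hy⟩
    obtain ⟨d, hd⟩ := hY y hy
    have hx : y + d ∈ G := G.add_mem hy (hTG _ _ hd)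
    refine ⟨⟨y + d, hx⟩, Subtype.ext ?_⟩
    show y + d - c (y + d) = y
    rw [(hcov (y + d) hx).unique hT hd]
    ring
  have hne : ∀ x y : G, dist (f x) (f y) ≤ dist x y := by
    intro x y
    rw [Subtype.dist_eq, Subtype.dist_eq, Real.dist_eq, Real.dist_eq]
    rcases lt_trichotomy (x : ℝ) y with h | h | h
    · obtain ⟨h1, h2⟩ := hlt x y h
      rw [abs_of_neg (by linarith), abs_of_neg (by linarith)]
      linarith
    · rw [Subtype.ext h]; simp
    · obtain ⟨h1, h2⟩ := hlt y x h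
      rw [abs_of_pos (by linarith), abs_of_pos (by linarith)]
      linarith
  have h := hP f ⟨hinj, hsurj⟩ hne ⟨a, ha⟩ ⟨b, hb⟩
  rw [Subtype.dist_eq, Subtype.dist_eq, Real.dist_eq, Real.dist_eq] at h
  have h1 : c a = ca := (hcov a ha).unique hT hca
  have h2 : c b = cb := (hcov b hb).unique hT hcb
  have h3 := (hlt ⟨a, ha⟩ ⟨b, hb⟩ hab).1
  have h4 : ((f ⟨a, ha⟩ : G) : ℝ) = a - c a := rfl
  have h5 : ((f ⟨b, hb⟩ : G) : ℝ) = b - c b := rfl
  rw [abs_of_neg (by linarith), abs_of_neg (by simpa using hab), h4, h5, h1, h2] at h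
  simp only at h
  linarith

/-! ### Refinements of gaps -/

/-- `S` is a finite chain of nodes strictly between `p` and `q`. -/
def Btw (G : AddSubgroup ℝ) (p q : ℝ × ℝ) (S : Set (ℝ × ℝ)) : Prop :=
  S.Finite ∧ Ch S ∧ ∀ s ∈ S, s.2 ∈ G ∧ R p s ∧ R s q

theorem Btw.empty (G : AddSubgroup ℝ) (p q : ℝ × ℝ) : Btw G p q ∅ :=
  ⟨finite_empty, fun p hp => absurd hp (notMem_empty p), fun s hs => absurd hs (notMem_empty s)⟩

theorem Btw.glue {G : AddSubgroup ℝ} {p m q : ℝ × ℝ} {S S' : Set (ℝ × ℝ)} (hS : Btw G p m S)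
    (hS' : Btw G m q S') (hm : m.2 ∈ G) (hpm : R p m) (hmq : R m q) :
    Btw G p q (S ∪ insert m S') := by
  refine ⟨hS.1.union (hS'.1.insert m), ?_, ?_⟩
  · have h1 : ∀ s ∈ S, ∀ t ∈ insert m S', R s t := by
      rintro s hs t (rfl | ht)
      · exact (hS.2.2 s hs).2.2
      · exact (hS.2.2 s hs).2.2.trans (hS'.2.2 t ht).2.1
    have h2 : Ch (insert m S') := by
      rintro s (rfl | hs) t (rfl | ht)
      · exact Or.inl rfl
      · exact Or.inr (Or.inl (hS'.2.2 t ht).2.1)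
      · exact Or.inr (Or.inr (hS'.2.2 s hs).2.1)
      · exact hS'.2.1 s hs t ht
    rintro s (hs | hs) t (ht | ht)
    · exact hS.2.1 s hs t ht
    · exact Or.inr (Or.inl (h1 s hs t ht))
    · exact Or.inr (Or.inr (h1 t ht s hs))
    · exact h2 s hs t ht
  · rintro s (hs | rfl | hs)
    · exact ⟨(hS.2.2 s hs).1, (hS.2.2 s hs).2.1, (hS.2.2 s hs).2.2.trans hmq⟩
    · exact ⟨hm, hpm, hmq⟩
    · exact ⟨(hS'.2.2 s hs).1, hpm.trans (hS'.2.2 s hs).2.1, (hS'.2.2 s hs).2.2⟩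

/-- Extension of chains: it is enough to fill single gaps. -/
theorem extend (G : AddSubgroup ℝ) (Good : ℝ × ℝ → ℝ × ℝ → Set (ℝ × ℝ) → Prop)
    (hloc : ∀ p q, p.2 ∈ G → q.2 ∈ G → R p q → ∃ S, Btw G p q S ∧ Good p q S)
    (hglue : ∀ p m q S S', R p m → R m q → Good p m S → Good m q S' →
      Good p q (S ∪ insert m S')) :
    ∀ (n : ℕ) (p q : ℝ × ℝ) (S : Set (ℝ × ℝ)), p.2 ∈ G → q.2 ∈ G → R p q → Btw G p q S →
      S.ncard ≤ n → ∃ S', S ⊆ S' ∧ Btw G p q S' ∧ Good p q S' := by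
  intro n
  induction n with
  | zero =>
    intro p q S hp hq hpq hS hcard
    have : S = ∅ := (Set.ncard_eq_zero hS.1).1 (Nat.le_zero.1 hcard)
    obtain ⟨S', h1, h2⟩ := hloc p q hp hq hpq
    exact ⟨S', by rw [this]; exact empty_subset _, h1, h2⟩
  | succ n ih =>
    intro p q S hp hq hpq hS hcard
    rcases S.eq_empty_or_nonempty with rfl | ⟨m, hm⟩
    · obtain ⟨S', h1, h2⟩ := hloc p q hp hq hpq
      exact ⟨S', empty_subset _, h1, h2⟩
    obtain ⟨hmG, hpm, hmq⟩ := hS.2.2 m hm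
    have hirr : ∀ s, ¬ R s s := fun s h => lt_irrefl _ h.2
    have hlt1 : (S ∩ {s | R s m}).ncard < S.ncard :=
      Set.ncard_lt_ncard ⟨inter_subset_left, fun h => hirr m (h hm).2⟩ hS.1
    have hlt2 : (S ∩ {s | R m s}).ncard < S.ncard :=
      Set.ncard_lt_ncard ⟨inter_subset_left, fun h => hirr m (h hm).2⟩ hS.1
    obtain ⟨S1, hS1, hB1, hG1⟩ := ih p m (S ∩ {s | R s m}) hp hmG hpm
      ⟨hS.1.inter_of_left _, fun s hs t ht => hS.2.1 s hs.1 t ht.1,
        fun s hs => ⟨(hS.2.2 s hs.1).1, (hS.2.2 s hs.1).2.1, hs.2⟩⟩ (by omega)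
    obtain ⟨S2, hS2, hB2, hG2⟩ := ih m q (S ∩ {s | R m s}) hmG hq hmq
      ⟨hS.1.inter_of_left _, fun s hs t ht => hS.2.1 s hs.1 t ht.1,
        fun s hs => ⟨(hS.2.2 s hs.1).1, hs.2, (hS.2.2 s hs.1).2.2⟩⟩ (by omega)
    refine ⟨S1 ∪ insert m S2, ?_, hB1.glue hB2 hmG hpm hmq, hglue p m q S1 S2 hpm hmq hG1 hG2⟩
    intro s hs
    rcases hS.2.1 s hs m hm with rfl | h | h
    · exact Or.inr (Or.inl rfl)
    · exact Or.inl (hS1 ⟨hs, h⟩)
    · exact Or.inr (Or.inr (hS2 ⟨hs, h⟩))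

/-- The points of `K` between `p` and `q` are covered. -/
def GoodX (K : Set ℝ) (p q : ℝ × ℝ) (S : Set (ℝ × ℝ)) : Prop :=
  ∀ x ∈ K, p.1 ≤ x → x ≤ q.1 → ∃ c, Cov (insert p (insert q S)) x c

/-- The points of `K` between the images of `p` and `q` are covered. -/
def GoodY (K : Set ℝ) (p q : ℝ × ℝ) (S : Set (ℝ × ℝ)) : Prop :=
  ∀ y ∈ K, p.1 - p.2 ≤ y → y ≤ q.1 - q.2 → ∃ c, Cov (insert p (insert q S)) (y + c) c

theorem GoodX.glue (K : Set ℝ) (p m q : ℝ × ℝ) (S S' : Set (ℝ × ℝ)) (h : GoodX K p m S)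
    (h' : GoodX K m q S') : GoodX K p q (S ∪ insert m S') := by
  intro x hx hpx hxq
  rcases le_total x m.1 with hxm | hxm
  · obtain ⟨c, hc⟩ := h x hx hpx hxm
    refine ⟨c, hc.mono ?_⟩
    rintro s (rfl | rfl | hs)
    · exact Or.inl rfl
    · exact Or.inr (Or.inr (Or.inr (Or.inl rfl)))
    · exact Or.inr (Or.inr (Or.inl hs))
  · obtain ⟨c, hc⟩ := h' x hx hxm hxq
    refine ⟨c, hc.mono ?_⟩
    rintro s (rfl | rfl | hs)
    · exact Or.inr (Or.inr (Or.inr (Or.inl rfl)))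
    · exact Or.inr (Or.inl rfl)
    · exact Or.inr (Or.inr (Or.inr (Or.inr hs)))

theorem GoodY.glue (K : Set ℝ) (p m q : ℝ × ℝ) (S S' : Set (ℝ × ℝ)) (h : GoodY K p m S)
    (h' : GoodY K m q S') : GoodY K p q (S ∪ insert m S') := by
  intro x hx hpx hxq
  rcases le_total x (m.1 - m.2) with hxm | hxm
  · obtain ⟨c, hc⟩ := h x hx hpx hxm
    refine ⟨c, hc.mono ?_⟩
    rintro s (rfl | rfl | hs)
    · exact Or.inl rfl
    · exact Or.inr (Or.inr (Or.inr (Or.inl rfl)))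
    · exact Or.inr (Or.inr (Or.inl hs))
  · obtain ⟨c, hc⟩ := h' x hx hxm hxq
    refine ⟨c, hc.mono ?_⟩
    rintro s (rfl | rfl | hs)
    · exact Or.inr (Or.inr (Or.inr (Or.inl rfl)))
    · exact Or.inr (Or.inl rfl)
    · exact Or.inr (Or.inr (Or.inr (Or.inr hs)))

/-- A normalized step function which is locally constant near the compact null set `K`. -/
theorem exists_step {α β : ℝ} {K : Set ℝ} (hK : IsCompact K) (hK0 : volume K = 0)
    {σ : ℝ} (hσ0 : 0 ≤ σ) (hσ : σ < β - α) :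
    ∃ (ψ : ℝ → ℝ) (T : Finset ℝ) (L : ℝ), ψ α = 0 ∧ ψ β = 1 ∧ L * σ < 1 ∧
      (∀ t t', α ≤ t → t ≤ t' → t' ≤ β → ψ t ≤ ψ t' ∧ ψ t' - ψ t ≤ L * (t' - t)) ∧
      α ∈ T ∧ β ∈ T ∧ (∀ t ∈ T, α ≤ t ∧ t ≤ β) ∧
      ∀ x ∈ K, α ≤ x → x ≤ β → ∃ t ∈ T, ∃ t' ∈ T, t ≤ x ∧ x ≤ t' ∧ ψ t = ψ t' := by
  classical
  have hαβ : α < β := by linarith
  obtain ⟨O, hKO, hO, hOv⟩ := K.exists_isOpen_lt_of_lt (μ := volume)
    (ENNReal.ofReal (β - α - σ)) (by
      rw [hK0]
      exact ENNReal.ofReal_pos.2 (by linarith))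
  have hfin : ∀ t, volume (Icc α t \ O) ≠ ⊤ := fun t =>
    ((measure_mono sdiff_subset).trans_lt measure_Icc_lt_top).ne
  let g : ℝ → ℝ := fun t => (volume (Icc α t \ O)).toReal
  have hmono : ∀ t t', t ≤ t' → g t ≤ g t' := fun t t' h =>
    ENNReal.toReal_mono (hfin t') (measure_mono (sdiff_subset_sdiff_left (Icc_subset_Icc_right h)))
  have hup : ∀ t t', t ≤ t' → g t' ≤ g t + (volume (Ioc t t' \ O)).toReal := by
    intro t t' h
    have h1 : volume (Icc α t' \ O) ≤ volume (Icc α t \ O) + volume (Ioc t t' \ O) := by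
      refine (measure_mono ?_).trans (measure_union_le _ _)
      rintro x ⟨⟨hx1, hx2⟩, hxO⟩
      rcases le_or_gt x t with hxt | hxt
      · exact Or.inl ⟨⟨hx1, hxt⟩, hxO⟩
      · exact Or.inr ⟨⟨hxt, hx2⟩, hxO⟩
    have h2 : volume (Ioc t t' \ O) ≠ ⊤ :=
      ((measure_mono sdiff_subset).trans_lt measure_Ioc_lt_top).ne
    have h3 := ENNReal.toReal_mono (ENNReal.add_ne_top.2 ⟨hfin t, h2⟩) h1
    rwa [ENNReal.toReal_add (hfin t) h2] at h3
  have hlip : ∀ t t', t ≤ t' → g t' - g t ≤ t' - t := by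
    intro t t' h
    have h1 := hup t t' h
    have h2 : (volume (Ioc t t' \ O)).toReal ≤ t' - t := by
      have h3 : volume (Ioc t t' \ O) ≤ ENNReal.ofReal (t' - t) := by
        rw [← Real.volume_Ioc]
        exact measure_mono sdiff_subset
      have h4 := ENNReal.toReal_mono ENNReal.ofReal_ne_top h3
      rwa [ENNReal.toReal_ofReal (by linarith)] at h4
    linarith
  have hconst : ∀ t t', t ≤ t' → Icc t t' ⊆ O → g t = g t' := by
    intro t t' h hsub
    refine le_antisymm (hmono t t' h) ?_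
    have h1 := hup t t' h
    have h2 : Ioc t t' \ O = ∅ := by
      rw [sdiff_eq_empty]
      exact Ioc_subset_Icc_self.trans hsub
    rw [h2] at h1
    simpa using h1
  have hgα : g α = 0 := by
    have : volume (Icc α α \ O) = 0 := by
      refine measure_mono_null sdiff_subset ?_
      simp
    show (volume (Icc α α \ O)).toReal = 0
    rw [this]; simp
  have hgβ : σ < g β := by
    have h1 : volume (Icc α β) ≤ volume (Icc α β \ O) + volume O := by
      refine (measure_mono ?_).trans (measure_union_le _ _)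
      intro x hx
      by_cases hxO : x ∈ O
      · exact Or.inr hxO
      · exact Or.inl ⟨hx, hxO⟩
    have hOt : volume O ≠ ⊤ := (hOv.trans ENNReal.ofReal_lt_top).ne
    have h2 := ENNReal.toReal_mono (ENNReal.add_ne_top.2 ⟨hfin β, hOt⟩) h1
    rw [ENNReal.toReal_add (hfin β) hOt, Real.volume_Icc,
      ENNReal.toReal_ofReal (by linarith)] at h2
    have h3 := (ENNReal.toReal_lt_toReal hOt ENNReal.ofReal_ne_top).2 hOv
    rw [ENNReal.toReal_ofReal (by linarith)] at h3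
    show σ < (volume (Icc α β \ O)).toReal
    linarith
  have hgpos : 0 < g β := by linarith
  -- compactness
  have hr : ∀ x ∈ K, ∃ r > 0, Icc (x - r) (x + r) ⊆ O := by
    intro x hx
    obtain ⟨ε, hε, h⟩ := Metric.isOpen_iff.1 hO x (hKO hx)
    refine ⟨ε / 2, half_pos hε, fun y hy => h ?_⟩
    rw [Metric.mem_ball, Real.dist_eq, abs_lt]
    constructor
    · linarith [hy.1]
    · linarith [hy.2]
  choose! r hr0 hr using hr
  obtain ⟨C, hC⟩ := hK.elim_nhds_subcover' (fun x hx => Ioo (x - r x) (x + r x)) (by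
    intro x hx
    exact Ioo_mem_nhds (by linarith [hr0 x hx]) (by linarith [hr0 x hx]))
  refine ⟨fun t => g t / g β, insert α (insert β ((C.image fun x : K => max α (x - r x)) ∪
    (C.image fun x : K => min β (x + r x)))) |>.filter fun t => α ≤ t ∧ t ≤ β, 1 / g β,
    ?_, ?_, ?_, ?_, ?_, ?_, ?_, ?_⟩
  · show g α / g β = 0
    rw [hgα, zero_div]
  · exact div_self hgpos.ne'
  · rw [one_div, inv_mul_eq_div, div_lt_one hgpos]
    exact hgβ
  · intro t t' _ htt _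
    refine ⟨div_le_div_of_nonneg_right (hmono t t' htt) hgpos.le, ?_⟩
    rw [← sub_div, one_div, inv_mul_eq_div]
    exact div_le_div_of_nonneg_right (hlip t t' htt) hgpos.le
  · simp [hαβ.le]
  · simp [hαβ.le]
  · intro t ht
    exact (Finset.mem_filter.1 ht).2
  · intro x hx hαx hxβ
    obtain ⟨y, hy, hxy⟩ := mem_iUnion₂.1 (hC hx)
    have h1 : max α ((y : ℝ) - r y) ≤ x := max_le hαx hxy.1.le
    have h2 : x ≤ min β ((y : ℝ) + r y) := le_min hxβ hxy.2.le
    refine ⟨max α ((y : ℝ) - r y), ?_, min β ((y : ℝ) + r y), ?_, h1, h2, ?_⟩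
    · refine Finset.mem_filter.2 ⟨?_, le_max_left _ _, h1.trans hxβ⟩
      refine Finset.mem_insert_of_mem (Finset.mem_insert_of_mem (Finset.mem_union_left _ ?_))
      exact Finset.mem_image_of_mem (fun x : K => max α ((x : ℝ) - r x)) hy
    · refine Finset.mem_filter.2 ⟨?_, hαx.trans h2, min_le_left _ _⟩
      refine Finset.mem_insert_of_mem (Finset.mem_insert_of_mem (Finset.mem_union_right _ ?_))
      exact Finset.mem_image_of_mem (fun x : K => min β ((x : ℝ) + r x)) hy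
    · show g _ / g β = g _ / g β
      rw [hconst _ _ (h1.trans h2)]
      intro z hz
      exact hr y y.2 ⟨(le_max_right _ _).trans hz.1, hz.2.trans (min_le_right _ _)⟩

theorem exists_perturb (G : AddSubgroup ℝ) (hG : Dense (G : Set ℝ)) (V : Finset ℝ) {ε : ℝ}
    (hε : 0 < ε) : ∃ π : ℝ → ℝ, (∀ v, π v ∈ G) ∧ (∀ v, |π v - v| < ε) ∧
      (∀ v, v ∈ G → π v = v) ∧ ∀ v ∈ V, ∀ v' ∈ V, v < v' → π v < π v' := by
  classical
  obtain ⟨η, hη0, hηε, hη⟩ : ∃ η : ℝ, 0 < η ∧ η ≤ ε ∧ ∀ v ∈ V, ∀ v' ∈ V, v < v' →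
      2 * η ≤ v' - v := by
    have h : ∀ W : Finset (ℝ × ℝ), ∃ η : ℝ, 0 < η ∧ η ≤ ε ∧ ∀ w ∈ W, w.1 < w.2 →
        2 * η ≤ w.2 - w.1 := by
      intro W
      induction W using Finset.induction_on with
      | empty => exact ⟨ε, hε, le_rfl, by simp⟩
      | insert w W _ ih =>
        obtain ⟨η, h1, h2, h3⟩ := ih
        by_cases hw : w.1 < w.2
        · refine ⟨min η ((w.2 - w.1) / 2), lt_min h1 (by linarith), (min_le_left _ _).trans h2, ?_⟩
          intro u hu hu'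
          rcases Finset.mem_insert.1 hu with rfl | hu
          · have := min_le_right η ((u.2 - u.1) / 2)
            linarith
          · have := min_le_left η ((w.2 - w.1) / 2)
            have := h3 u hu hu'
            linarith
        · refine ⟨η, h1, h2, fun u hu hu' => ?_⟩
          rcases Finset.mem_insert.1 hu with rfl | hu
          · exact absurd hu' hw
          · exact h3 u hu hu'
    obtain ⟨η, h1, h2, h3⟩ := h (V ×ˢ V)
    exact ⟨η, h1, h2, fun v hv v' hv' => h3 (v, v') (Finset.mem_product.2 ⟨hv, hv'⟩)⟩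
  have hd : ∀ v, ∃ d ∈ G, |d - v| < η ∧ (v ∈ G → d = v) := by
    intro v
    by_cases hv : v ∈ G
    · exact ⟨v, hv, by simpa using hη0, fun _ => rfl⟩
    · obtain ⟨d, hd, hdG⟩ := Metric.dense_iff.1 hG v η hη0
      rw [Metric.mem_ball, Real.dist_eq] at hd
      exact ⟨d, hdG, hd, fun h => absurd h hv⟩
  choose π hπG hπη hπv using hd
  refine ⟨π, hπG, fun v => (hπη v).trans_le hηε, hπv, fun v hv v' hv' hvv' => ?_⟩
  have h1 := abs_lt.1 (hπη v)
  have h2 := abs_lt.1 (hπη v')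
  have h3 := hη v hv v' hv' hvv'
  linarith [h1.2, h2.1]

theorem local_X (G : AddSubgroup ℝ) (hG : Dense (G : Set ℝ)) {K : Set ℝ} (hK : IsCompact K)
    (hK0 : volume K = 0) (p q : ℝ × ℝ) (hp : p.2 ∈ G) (hq : q.2 ∈ G) (hpq : R p q) :
    ∃ S, Btw G p q S ∧ GoodX K p q S := by
  classical
  rcases hpq.1.eq_or_lt with heq | hlt
  · refine ⟨∅, Btw.empty G p q, fun x _ hpx hxq => ⟨p.2, p, Or.inl rfl, q, Or.inr (Or.inl rfl),
      rfl, heq.symm, hpx, hxq⟩⟩
  have h2 := hpq.2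
  obtain ⟨ψ, T, L, hψα, hψβ, hLσ, hψ, hαT, hβT, hT, hcov⟩ := exists_step (α := p.1) (β := q.1) hK
    hK0 (σ := q.2 - p.2) (by linarith) (by linarith)
  set σ := q.2 - p.2 with hσ
  have hσ0 : 0 < σ := by rw [hσ]; linarith
  let Ψ : ℝ → ℝ := fun t => p.2 + σ * ψ t
  obtain ⟨ε, hε0, hε⟩ : ∃ ε : ℝ, 0 < ε ∧ ∀ t ∈ T, ∀ t' ∈ T, t < t' →
      2 * ε ≤ (1 - L * σ) * (t' - t) := by
    have h : ∀ W : Finset (ℝ × ℝ), ∃ η : ℝ, 0 < η ∧ ∀ w ∈ W, w.1 < w.2 →
        2 * η ≤ (1 - L * σ) * (w.2 - w.1) := by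
      intro W
      induction W using Finset.induction_on with
      | empty => exact ⟨1, one_pos, by simp⟩
      | insert w W _ ih =>
        obtain ⟨η, h1, h3⟩ := ih
        by_cases hw : w.1 < w.2
        · refine ⟨min η ((1 - L * σ) * (w.2 - w.1) / 2), lt_min h1 ?_, ?_⟩
          · have : 0 < (1 - L * σ) * (w.2 - w.1) := mul_pos (by linarith) (by linarith)
            linarith
          intro u hu hu'
          rcases Finset.mem_insert.1 hu with rfl | hu
          · have := min_le_right η ((1 - L * σ) * (u.2 - u.1) / 2)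
            linarith
          · have := min_le_left η ((1 - L * σ) * (w.2 - w.1) / 2)
            have := h3 u hu hu'
            linarith
        · refine ⟨η, h1, fun u hu hu' => ?_⟩
          rcases Finset.mem_insert.1 hu with rfl | hu
          · exact absurd hu' hw
          · exact h3 u hu hu'
    obtain ⟨η, h1, h3⟩ := h (T ×ˢ T)
    exact ⟨η, h1, fun v hv v' hv' => h3 (v, v') (Finset.mem_product.2 ⟨hv, hv'⟩)⟩
  obtain ⟨π, hπG, hπε, hπv, hπm⟩ := exists_perturb G hG (T.image Ψ) hε0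
  let ν : ℝ → ℝ × ℝ := fun t => (t, π (Ψ t))
  have hνp : ν p.1 = p := by
    have : Ψ p.1 = p.2 := by simp [Ψ, hψα]
    show (p.1, π (Ψ p.1)) = p
    rw [this, hπv p.2 hp]
  have hνq : ν q.1 = q := by
    have : Ψ q.1 = q.2 := by simp [Ψ, hψβ, hσ]
    show (q.1, π (Ψ q.1)) = q
    rw [this, hπv q.2 hq]
  have hR : ∀ t ∈ T, ∀ t' ∈ T, t < t' → R (ν t) (ν t') := by
    intro t ht t' ht' htt
    obtain ⟨h3, h4⟩ := hψ t t' (hT t ht).1 htt.le (hT t' ht').2
    have h5 : Ψ t ≤ Ψ t' := by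
      show p.2 + σ * ψ t ≤ p.2 + σ * ψ t'
      have := mul_le_mul_of_nonneg_left h3 hσ0.le
      linarith
    rcases h5.eq_or_lt with h6 | h6
    · refine ⟨?_, ?_⟩
      · show π (Ψ t) ≤ π (Ψ t')
        rw [h6]
      · show t - π (Ψ t) < t' - π (Ψ t')
        rw [h6]; linarith
    · refine ⟨(hπm _ (Finset.mem_image_of_mem _ ht) _ (Finset.mem_image_of_mem _ ht') h6).le, ?_⟩
      show t - π (Ψ t) < t' - π (Ψ t')
      have h7 := abs_lt.1 (hπε (Ψ t))
      have h8 := abs_lt.1 (hπε (Ψ t'))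
      have h9 := hε t ht t' ht' htt
      have h10 : Ψ t' - Ψ t ≤ L * σ * (t' - t) := by
        have : Ψ t' - Ψ t = σ * (ψ t' - ψ t) := by simp only [Ψ]; ring
        rw [this]
        have := mul_le_mul_of_nonneg_left h4 hσ0.le
        calc σ * (ψ t' - ψ t) ≤ σ * (L * (t' - t)) := this
          _ = L * σ * (t' - t) := by ring
      have h11 : (1 - L * σ) * (t' - t) = (t' - t) - L * σ * (t' - t) := by ring
      linarith [h7.1, h8.2]
  refine ⟨ν '' {t | t ∈ T ∧ p.1 < t ∧ t < q.1}, ⟨?_, ?_, ?_⟩, ?_⟩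
  · exact (T.finite_toSet.subset fun t ht => ht.1).image ν
  · rintro _ ⟨t, ht, rfl⟩ _ ⟨t', ht', rfl⟩
    rcases lt_trichotomy t t' with h | h | h
    · exact Or.inr (Or.inl (hR t ht.1 t' ht'.1 h))
    · exact Or.inl (by rw [h])
    · exact Or.inr (Or.inr (hR t' ht'.1 t ht.1 h))
  · rintro _ ⟨t, ht, rfl⟩
    refine ⟨hπG _, ?_, ?_⟩
    · have := hR p.1 hαT t ht.1 ht.2.1
      rwa [hνp] at this
    · have := hR t ht.1 q.1 hβT ht.2.2
      rwa [hνq] at this
  · have hmem : ∀ t ∈ T, ν t ∈ insert p (insert q (ν '' {t | t ∈ T ∧ p.1 < t ∧ t < q.1})) := by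
      intro t ht
      rcases (hT t ht).1.eq_or_lt with h | h
      · left; rw [← h, hνp]
      rcases (hT t ht).2.eq_or_lt with h' | h'
      · right; left; rw [h', hνq]
      · right; right; exact ⟨t, ⟨ht, h, h'⟩, rfl⟩
    intro x hx hpx hxq
    obtain ⟨t, ht, t', ht', h1, h2, h3⟩ := hcov x hx hpx hxq
    refine ⟨π (Ψ t), ν t, hmem t ht, ν t', hmem t' ht', rfl, ?_, h1, h2⟩
    show π (Ψ t') = π (Ψ t)
    simp only [Ψ, h3]

theorem local_Y (G : AddSubgroup ℝ) (hG : Dense (G : Set ℝ)) {K : Set ℝ} (hK : IsCompact K)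
    (hK0 : volume K = 0) (p q : ℝ × ℝ) (hp : p.2 ∈ G) (hq : q.2 ∈ G) (hpq : R p q) :
    ∃ S, Btw G p q S ∧ GoodY K p q S := by
  classical
  rcases hpq.1.eq_or_lt with heq | hlt
  · refine ⟨∅, Btw.empty G p q, fun y _ hpy hyq => ⟨p.2, p, Or.inl rfl, q, Or.inr (Or.inl rfl),
      rfl, heq.symm, by linarith, by linarith⟩⟩
  have h2 := hpq.2
  obtain ⟨ψ, T, L, hψα, hψβ, hLσ, hψ, hαT, hβT, hT, hcov⟩ := exists_step (α := p.1 - p.2)
    (β := q.1 - q.2) hK hK0 (σ := 0) le_rfl (by linarith)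
  set σ := q.2 - p.2 with hσ
  have hσ0 : 0 < σ := by rw [hσ]; linarith
  let Ψ : ℝ → ℝ := fun t => p.2 + σ * ψ t
  obtain ⟨π, hπG, hπε, hπv, hπm⟩ := exists_perturb G hG (T.image Ψ) one_pos
  let ν : ℝ → ℝ × ℝ := fun t => (t + π (Ψ t), π (Ψ t))
  have hνp : ν (p.1 - p.2) = p := by
    have : Ψ (p.1 - p.2) = p.2 := by simp [Ψ, hψα]
    show (p.1 - p.2 + π (Ψ (p.1 - p.2)), π (Ψ (p.1 - p.2))) = p
    rw [this, hπv p.2 hp]
    ext <;> simp
  have hνq : ν (q.1 - q.2) = q := by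
    have : Ψ (q.1 - q.2) = q.2 := by simp [Ψ, hψβ, hσ]
    show (q.1 - q.2 + π (Ψ (q.1 - q.2)), π (Ψ (q.1 - q.2))) = q
    rw [this, hπv q.2 hq]
    ext <;> simp
  have hR : ∀ t ∈ T, ∀ t' ∈ T, t < t' → R (ν t) (ν t') := by
    intro t ht t' ht' htt
    obtain ⟨h3, h4⟩ := hψ t t' (hT t ht).1 htt.le (hT t' ht').2
    have h5 : Ψ t ≤ Ψ t' := by
      show p.2 + σ * ψ t ≤ p.2 + σ * ψ t'
      have := mul_le_mul_of_nonneg_left h3 hσ0.le
      linarith
    have h6 : π (Ψ t) ≤ π (Ψ t') := by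
      rcases h5.eq_or_lt with h6 | h6
      · rw [h6]
      · exact (hπm _ (Finset.mem_image_of_mem _ ht) _ (Finset.mem_image_of_mem _ ht') h6).le
    refine ⟨h6, ?_⟩
    show t + π (Ψ t) - π (Ψ t) < t' + π (Ψ t') - π (Ψ t')
    linarith
  refine ⟨ν '' {t | t ∈ T ∧ p.1 - p.2 < t ∧ t < q.1 - q.2}, ⟨?_, ?_, ?_⟩, ?_⟩
  · exact (T.finite_toSet.subset fun t ht => ht.1).image ν
  · rintro _ ⟨t, ht, rfl⟩ _ ⟨t', ht', rfl⟩
    rcases lt_trichotomy t t' with h | h | h
    · exact Or.inr (Or.inl (hR t ht.1 t' ht'.1 h))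
    · exact Or.inl (by rw [h])
    · exact Or.inr (Or.inr (hR t' ht'.1 t ht.1 h))
  · rintro _ ⟨t, ht, rfl⟩
    refine ⟨hπG _, ?_, ?_⟩
    · have := hR _ hαT t ht.1 ht.2.1
      rwa [hνp] at this
    · have := hR t ht.1 _ hβT ht.2.2
      rwa [hνq] at this
  · have hmem : ∀ t ∈ T, ν t ∈
        insert p (insert q (ν '' {t | t ∈ T ∧ p.1 - p.2 < t ∧ t < q.1 - q.2})) := by
      intro t ht
      rcases (hT t ht).1.eq_or_lt with h | h
      · left; rw [← h, hνp]
      rcases (hT t ht).2.eq_or_lt with h' | h'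
      · right; left; rw [h', hνq]
      · right; right; exact ⟨t, ⟨ht, h, h'⟩, rfl⟩
    intro x hx hpx hxq
    obtain ⟨t, ht, t', ht', h1, h2, h3⟩ := hcov x hx hpx hxq
    have h4 : Ψ t' = Ψ t := by simp only [Ψ, h3]
    refine ⟨π (Ψ t), ν t, hmem t ht, ν t', hmem t' ht', rfl, ?_, ?_, ?_⟩
    · show π (Ψ t') = π (Ψ t)
      rw [h4]
    · show t + π (Ψ t) ≤ x + π (Ψ t)
      linarith
    · show x + π (Ψ t) ≤ t' + π (Ψ t')
      rw [h4]; linarith

theorem exists_next (G : AddSubgroup ℝ) (hG : Dense (G : Set ℝ)) {K : Set ℝ} (hK : IsCompact K)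
    (hK0 : volume K = 0) {p q : ℝ × ℝ} (hp : p.2 ∈ G) (hq : q.2 ∈ G) (hpq : R p q)
    {S : Set (ℝ × ℝ)} (hS : Btw G p q S) :
    ∃ S', S ⊆ S' ∧ Btw G p q S' ∧ GoodX K p q S' ∧ GoodY K p q S' := by
  obtain ⟨S1, h1, h2, h3⟩ := extend G (GoodX K) (local_X G hG hK hK0)
    (fun p m q S S' _ _ => GoodX.glue K p m q S S') _ p q S hp hq hpq hS le_rfl
  obtain ⟨S2, h4, h5, h6⟩ := extend G (GoodY K) (local_Y G hG hK hK0)
    (fun p m q S S' _ _ => GoodY.glue K p m q S S') _ p q S1 hp hq hpq h2 le_rfl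
  refine ⟨S2, h1.trans h4, h5, fun x hx hpx hxq => ?_, h6⟩
  obtain ⟨c, hc⟩ := h3 x hx hpx hxq
  exact ⟨c, hc.mono (insert_subset_insert (insert_subset_insert h4))⟩

theorem exists_chain (G : AddSubgroup ℝ) (hG : Dense (G : Set ℝ)) (K : ℕ → Set ℝ)
    (hK : ∀ n, IsCompact (K n)) (hK0 : ∀ n, volume (K n) = 0) {a δ : ℝ} (hδ : δ ∈ G)
    (hδ0 : 0 < δ) (hδa : δ < a) :
    ∃ T : Set (ℝ × ℝ), Ch T ∧ (∀ x c, Cov T x c → c ∈ G) ∧ (∀ n, ∀ x ∈ K n, ∃ c, Cov T x c) ∧
      (∀ n, ∀ y ∈ K n, ∃ c, Cov T (y + c) c) ∧ Cov T 0 0 ∧ Cov T a δ := by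
  let p : ℝ × ℝ := (0, 0)
  let q : ℝ × ℝ := (a, δ)
  have hpq : R p q := ⟨hδ0.le, by show (0 : ℝ) - 0 < a - δ; linarith⟩
  have hp : p.2 ∈ G := G.zero_mem
  choose! nx h1 h2 h3 h4 using fun (n : ℕ) (S : Set (ℝ × ℝ)) (hS : Btw G p q S) =>
    exists_next G hG (hK n) (hK0 n) hp hδ hpq hS
  let S : ℕ → Set (ℝ × ℝ) := fun n => Nat.rec ∅ (fun n S => nx n S) n
  have hSs : ∀ n, S (n + 1) = nx n (S n) := fun _ => rfl
  have hSB : ∀ n, Btw G p q (S n) := by
    intro n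
    induction n with
    | zero => exact Btw.empty G p q
    | succ n ih => rw [hSs]; exact h2 n _ ih
  have hmono : Monotone S := monotone_nat_of_le_succ fun n => by
    rw [hSs]; exact h1 n _ (hSB n)
  let T : Set (ℝ × ℝ) := {s | s.2 = 0 ∧ s.1 ≤ 0} ∪ ({s | s.2 = δ ∧ a ≤ s.1} ∪ ⋃ n, S n)
  have hT0 : ∀ t : ℝ, t ≤ 0 → ((t, 0) : ℝ × ℝ) ∈ T := fun t ht => Or.inl ⟨rfl, ht⟩
  have hT1 : ∀ t : ℝ, a ≤ t → ((t, δ) : ℝ × ℝ) ∈ T := fun t ht => Or.inr (Or.inl ⟨rfl, ht⟩)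
  have hsub : ∀ n, insert p (insert q (S n)) ⊆ T := by
    rintro n s (rfl | rfl | hs)
    · exact hT0 0 le_rfl
    · exact hT1 a le_rfl
    · exact Or.inr (Or.inr (mem_iUnion.2 ⟨n, hs⟩))
  have hTG : ∀ s ∈ T, s.2 ∈ G := by
    rintro s (⟨h, _⟩ | ⟨h, _⟩ | hs)
    · rw [h]; exact G.zero_mem
    · rw [h]; exact hδ
    · obtain ⟨n, hn⟩ := mem_iUnion.1 hs
      exact ((hSB n).2.2 s hn).1
  refine ⟨T, ?_, ?_, ?_, ?_, ?_, ?_⟩
  · -- chain
    have hA : ∀ s t : ℝ × ℝ, s.2 = t.2 → s = t ∨ R s t ∨ R t s := by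
      intro s t hst
      rcases lt_trichotomy s.1 t.1 with h | h | h
      · exact Or.inr (Or.inl ⟨hst.le, by rw [hst]; linarith⟩)
      · exact Or.inl (Prod.ext h hst)
      · exact Or.inr (Or.inr ⟨hst.ge, by rw [hst]; linarith⟩)
    have hB : ∀ s t : ℝ × ℝ, s.2 = 0 → s.1 ≤ 0 → t.2 = δ → a ≤ t.1 → R s t := by
      intro s t h1 h2 h3 h4
      exact ⟨by rw [h1, h3]; exact hδ0.le, by rw [h1, h3]; linarith⟩
    have hC : ∀ s t : ℝ × ℝ, s.2 = 0 → s.1 ≤ 0 → R p t → R s t := by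
      intro s t h1 h2 h3
      have h4 : (0 : ℝ) ≤ t.2 := h3.1
      have h5 : (0 : ℝ) - 0 < t.1 - t.2 := h3.2
      exact ⟨by rw [h1]; exact h4, by rw [h1]; linarith⟩
    have hD : ∀ s t : ℝ × ℝ, R s q → t.2 = δ → a ≤ t.1 → R s t := by
      intro s t h1 h2 h3
      have h4 : s.2 ≤ δ := h1.1
      have h5 : s.1 - s.2 < a - δ := h1.2
      exact ⟨by rw [h2]; exact h4, by rw [h2]; linarith⟩
    rintro s (⟨h, h'⟩ | ⟨h, h'⟩ | hs) t (⟨k, k'⟩ | ⟨k, k'⟩ | ht)
    · exact hA s t (h.trans k.symm)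
    · exact Or.inr (Or.inl (hB s t h h' k k'))
    · obtain ⟨n, hn⟩ := mem_iUnion.1 ht
      exact Or.inr (Or.inl (hC s t h h' ((hSB n).2.2 t hn).2.1))
    · exact Or.inr (Or.inr (hB t s k k' h h'))
    · exact hA s t (h.trans k.symm)
    · obtain ⟨n, hn⟩ := mem_iUnion.1 ht
      exact Or.inr (Or.inr (hD t s ((hSB n).2.2 t hn).2.2 h h'))
    · obtain ⟨n, hn⟩ := mem_iUnion.1 hs
      exact Or.inr (Or.inr (hC t s k k' ((hSB n).2.2 s hn).2.1))
    · obtain ⟨n, hn⟩ := mem_iUnion.1 hs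
      exact Or.inr (Or.inl (hD s t ((hSB n).2.2 s hn).2.2 k k'))
    · obtain ⟨m, hm⟩ := mem_iUnion.1 hs
      obtain ⟨n, hn⟩ := mem_iUnion.1 ht
      exact (hSB (max m n)).2.1 s (hmono (le_max_left m n) hm) t (hmono (le_max_right m n) hn)
  · rintro x c ⟨s, hs, _, _, rfl, _⟩
    exact hTG s hs
  · intro n x hx
    rcases le_total x 0 with h | h
    · exact ⟨0, (x, 0), hT0 x h, (x, 0), hT0 x h, rfl, rfl, le_rfl, le_rfl⟩
    rcases le_total a x with h' | h'
    · exact ⟨δ, (x, δ), hT1 x h', (x, δ), hT1 x h', rfl, rfl, le_rfl, le_rfl⟩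
    obtain ⟨c, hc⟩ := h3 n _ (hSB n) x hx h h'
    exact ⟨c, hc.mono (hsub (n + 1))⟩
  · intro n y hy
    rcases le_total y 0 with h | h
    · exact ⟨0, (y, 0), hT0 y h, (y, 0), hT0 y h, rfl, rfl, by simp, by simp⟩
    rcases le_total (a - δ) y with h' | h'
    · exact ⟨δ, (y + δ, δ), hT1 _ (by linarith), (y + δ, δ), hT1 _ (by linarith), rfl, rfl,
        le_rfl, le_rfl⟩
    obtain ⟨c, hc⟩ := h4 n _ (hSB n) y hy (by show (0 : ℝ) - 0 ≤ y; linarith) h'
    exact ⟨c, hc.mono (hsub (n + 1))⟩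
  · exact ⟨(0, 0), hT0 0 le_rfl, (0, 0), hT0 0 le_rfl, rfl, rfl, le_rfl, le_rfl⟩
  · exact ⟨(a, δ), hT1 a le_rfl, (a, δ), hT1 a le_rfl, rfl, rfl, le_rfl, le_rfl⟩

/-! ### Proper analytic subgroups are small -/

theorem not_all_null {A B : Set ℝ} (hA : MeasurableSet A) (hB : MeasurableSet B)
    (hA0 : volume A ≠ 0) (hB0 : volume B ≠ 0) :
    ∃ t : ℝ, volume (A ∩ (fun x => x - t) ⁻¹' B) ≠ 0 := by
  by_contra! h
  let S : Set (ℝ × ℝ) := {z | z.1 ∈ A ∧ z.1 - z.2 ∈ B}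
  have hS : MeasurableSet S :=
    (measurable_fst hA).inter ((measurable_fst.sub measurable_snd) hB)
  have h1 : (volume.prod volume) S = 0 := by
    rw [Measure.prod_apply_symm hS, lintegral_eq_zero_iff']
    · refine Eventually.of_forall fun t => ?_
      exact h t
    · exact (measurable_measure_prodMk_right hS).aemeasurable
  have h2 := (Measure.measure_prod_null hS).1 h1
  -- the sections over the points of `A` have positive measure
  have h3 : ∀ x ∈ A, volume (Prod.mk x ⁻¹' S) = volume B := by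
    intro x hx
    have : Prod.mk x ⁻¹' S = (fun t => x - t) ⁻¹' B := by
      ext t
      simp [S, hx]
    rw [this]
    exact (Measure.measurePreserving_sub_left volume x).measure_preimage hB.nullMeasurableSet
  have h4 : A ⊆ {x | ¬ volume (Prod.mk x ⁻¹' S) = 0} := by
    intro x hx
    show ¬ volume (Prod.mk x ⁻¹' S) = 0
    rw [h3 x hx]
    exact hB0
  have h5 : volume {x | ¬ volume (Prod.mk x ⁻¹' S) = 0} = 0 := h2
  exact hA0 (measure_mono_null h4 h5)

theorem interior_sub {A B : Set ℝ} (hA : IsClosed A) (hB : IsClosed B)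
    (hA0 : volume A ≠ 0) (hB0 : volume B ≠ 0) :
    ∃ U : Set ℝ, IsOpen U ∧ U.Nonempty ∧ ∀ u ∈ U, ∃ x ∈ A, ∃ y ∈ B, u = x - y := by
  obtain ⟨t, ht⟩ := not_all_null hA.measurableSet hB.measurableSet hA0 hB0
  set C := A ∩ (fun x => x - t) ⁻¹' B with hC
  have hCm : MeasurableSet C := hA.measurableSet.inter
    ((measurable_id.sub_const t) hB.measurableSet)
  have h1 := Measure.sub_mem_nhds_zero_of_addHaar_pos (volume : Measure ℝ) C hCm
    (pos_iff_ne_zero.2 ht)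
  obtain ⟨V, hV, hVo, hV0⟩ := mem_nhds_iff.1 h1
  refine ⟨(fun x => x - t) ⁻¹' V, hVo.preimage (by fun_prop), ⟨t, by simpa using hV0⟩, ?_⟩
  intro u hu
  obtain ⟨x, hx, y, hy, hxy⟩ := hV hu
  refine ⟨x, hx.1, y - t, hy.2, ?_⟩
  have : x - y = u - t := hxy
  linarith

theorem meagre_translate {A : Set ℝ} (h : IsMeagre A) (d : ℝ) :
    IsMeagre ((fun x : ℝ => x + d) ⁻¹' A) := by
  have h1 : Tendsto (fun x : ℝ => x + d) (residual ℝ) (residual ℝ) :=
    tendsto_residual_of_isOpenMap (by fun_prop) (isOpenMap_add_right d)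
  exact h1 h

/-- A proper dense analytic subgroup of the real line is meager. -/
theorem meagre_of_analytic (G : AddSubgroup ℝ) (hG : Dense (G : Set ℝ))
    (hA : AnalyticSet (G : Set ℝ)) {t : ℝ} (ht : t ∉ G) : IsMeagre (G : Set ℝ) := by
  let A : Set ℝ := (fun x : ℝ => x + t) '' (G : Set ℝ)
  have hAA : AnalyticSet A := hA.image_of_continuous (by fun_prop)
  have hdisj : Disjoint (G : Set ℝ) A := by
    rw [Set.disjoint_left]
    rintro x hx ⟨y, hy, hxy⟩
    have : t = x - y := by simp only at hxy; linarith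
    exact ht (this ▸ G.sub_mem hx hy)
  obtain ⟨B, hGB, hAB, hB⟩ := hA.measurablySeparable hAA hdisj
  obtain ⟨U, hU, hBU⟩ := hB.residualEq_isOpen
  have h1 : IsMeagre (B \ U) := by
    show (B \ U)ᶜ ∈ residual ℝ
    filter_upwards [hBU] with x hx h
    exact h.2 (by rw [← show (x ∈ B) = (x ∈ U) from hx]; exact h.1)
  have h2 : IsMeagre (U \ B) := by
    show (U \ B)ᶜ ∈ residual ℝ
    filter_upwards [hBU] with x hx h
    exact h.2 (by rw [show (x ∈ B) = (x ∈ U) from hx]; exact h.1)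
  rcases U.eq_empty_or_nonempty with rfl | ⟨u, hu⟩
  · rw [sdiff_empty] at h1
    exact h1.mono hGB
  -- a countable dense set of translations by elements of `G`
  obtain ⟨D, hDG, hDc, hD⟩ := hG.exists_countable_dense_subset
  have hAU : IsMeagre (A ∩ U) := IsMeagre.mono (t := A ∩ U) (s := U \ B)
    (fun x hx => ⟨hx.2, fun h => Set.disjoint_left.1 hAB hx.1 h⟩) h2
  have hAm : IsMeagre (⋃ d ∈ D, (fun x : ℝ => x + d) ⁻¹' (A ∩ U)) :=
    isMeagre_biUnion hDc fun d _ => meagre_translate hAU d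
  have hsub : (G : Set ℝ) ⊆ (fun x : ℝ => x + t) ⁻¹' (⋃ d ∈ D, (fun x : ℝ => x + d) ⁻¹' (A ∩ U)) := by
    intro x hx
    obtain ⟨d, hdD, hd⟩ := hD.exists_mem_open (hU.preimage (continuous_const_add (x + t)))
      ⟨u - (x + t), by simpa using hu⟩
    simp only [mem_preimage, mem_iUnion, exists_prop]
    exact ⟨d, hdD, ⟨x + d, G.add_mem hx (hDG hdD), by ring⟩, hd⟩
  exact (meagre_translate hAm t).mono hsub

/-- The set `A` is covered by countably many closed null sets. -/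
def Coverable (A : Set ℝ) : Prop :=
  ∃ K : ℕ → Set ℝ, (∀ n, IsClosed (K n)) ∧ (∀ n, volume (K n) = 0) ∧ A ⊆ ⋃ n, K n

theorem Coverable.mono {A B : Set ℝ} (h : Coverable B) (hAB : A ⊆ B) : Coverable A := by
  obtain ⟨K, h1, h2, h3⟩ := h
  exact ⟨K, h1, h2, hAB.trans h3⟩

theorem Coverable.iUnion {A : ℕ → Set ℝ} (h : ∀ n, Coverable (A n)) : Coverable (⋃ n, A n) := by
  choose K h1 h2 h3 using h
  refine ⟨fun n => K n.unpair.1 n.unpair.2, fun n => h1 _ _, fun n => h2 _ _, ?_⟩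
  intro x hx
  obtain ⟨m, hm⟩ := mem_iUnion.1 hx
  obtain ⟨k, hk⟩ := mem_iUnion.1 (h3 m hm)
  exact mem_iUnion.2 ⟨Nat.pair m k, by simpa using hk⟩

theorem Coverable.union {A B : Set ℝ} (h : Coverable A) (h' : Coverable B) :
    Coverable (A ∪ B) := by
  have : Coverable (⋃ n : ℕ, if n = 0 then A else B) := by
    refine Coverable.iUnion fun n => ?_
    split_ifs
    · exact h
    · exact h'
  refine this.mono ?_
  rintro x (hx | hx)
  · exact mem_iUnion.2 ⟨0, by simpa using hx⟩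
  · exact mem_iUnion.2 ⟨1, by simpa using hx⟩

theorem coverable_empty : Coverable ∅ :=
  ⟨fun _ => ∅, fun _ => isClosed_empty, fun _ => measure_empty, empty_subset _⟩

theorem Coverable.sUnion {ι : Type} {s : Set ι} (hs : s.Countable) {A : ι → Set ℝ}
    (h : ∀ i ∈ s, Coverable (A i)) : Coverable (⋃ i ∈ s, A i) := by
  rcases s.eq_empty_or_nonempty with rfl | hne
  · simpa using coverable_empty
  obtain ⟨e, he⟩ := hs.exists_eq_range hne
  subst he
  have : Coverable (⋃ n, A (e n)) := Coverable.iUnion fun n => h _ (mem_range_self n)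
  simpa using this

theorem coverable_of_closure {A : Set ℝ} (h : volume (closure A) = 0) : Coverable A :=
  ⟨fun _ => closure A, fun _ => isClosed_closure, fun _ => h,
    fun _ hx => mem_iUnion.2 ⟨0, subset_closure hx⟩⟩

/-- Laczkovich: a meager analytic subgroup of the real line is covered by countably many closed
null sets. -/
theorem coverable_of_meagre (G : AddSubgroup ℝ) (hA : AnalyticSet (G : Set ℝ))
    (hM : IsMeagre (G : Set ℝ)) : Coverable (G : Set ℝ) := by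
  by_contra hcov
  rw [AnalyticSet] at hA
  rcases hA with h0 | ⟨f, hf, hfG⟩
  · exact absurd G.zero_mem (by rw [← SetLike.mem_coe, h0]; exact notMem_empty 0)
  have hfG' : ∀ x, f x ∈ G := fun x => by
    rw [← SetLike.mem_coe, ← hfG]; exact mem_range_self x
  -- the small open part
  obtain ⟨b, hbc, -, hb⟩ := exists_countable_basis (ℕ → ℕ)
  let s : Set (Set (ℕ → ℕ)) := {V | V ∈ b ∧ Coverable (f '' V)}
  let W : Set (ℕ → ℕ) := ⋃ V ∈ s, V
  have hW : IsOpen W := isOpen_biUnion fun V hV => hb.isOpen hV.1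
  have hsc : s.Countable := hbc.mono fun V hV => hV.1
  have hWc : Coverable (f '' W) := by
    rw [image_iUnion₂]
    exact Coverable.sUnion hsc fun V hV => hV.2
  let F : Set (ℕ → ℕ) := Wᶜ
  have hF : IsClosed F := hW.isClosed_compl
  have hFne : F.Nonempty := by
    by_contra h
    have h1 : W = univ := by
      rw [← compl_empty_iff]
      exact not_nonempty_iff_eq_empty.1 h
    apply hcov
    rw [← hfG, ← image_univ, ← h1]
    exact hWc
  have hbig : ∀ V : Set (ℕ → ℕ), IsOpen V → (V ∩ F).Nonempty → ¬ Coverable (f '' (V ∩ F)) := by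
    rintro V hV ⟨x, hxV, hxF⟩ hc
    obtain ⟨V', hV', hxV', hV'V⟩ := hb.mem_nhds_iff.1 (hV.mem_nhds hxV)
    apply hxF
    refine mem_biUnion (show V' ∈ s from ⟨hV', ?_⟩) hxV'
    refine (hc.union hWc).mono ?_
    rintro _ ⟨y, hy, rfl⟩
    by_cases hyW : y ∈ W
    · exact Or.inr ⟨y, hyW, rfl⟩
    · exact Or.inl ⟨y, ⟨hV'V hy, hyW⟩, rfl⟩
  -- closed nowhere dense sets covering `G`
  obtain ⟨S, hS1, hS2, hS3⟩ := isMeagre_iff_countable_union_isNowhereDense.1 hM
  have hSne : S.Nonempty := by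
    obtain ⟨N, hN, -⟩ := hS3 G.zero_mem
    exact ⟨N, hN⟩
  obtain ⟨N, hN⟩ := hS2.exists_eq_range hSne
  have hNN : ∀ n, IsNowhereDense (N n) := fun n => hS1 _ (hN ▸ mem_range_self n)
  have : PolishSpace F := hF.polishSpace
  have : Nonempty F := hFne.to_subtype
  let C : ℕ → Set (F × F) := fun n => {z | f z.1 - f z.2 ∈ closure (N n)}
  have hC : ∀ n, IsClosed (C n) := fun n =>
    isClosed_closure.preimage ((hf.comp (continuous_subtype_val.comp continuous_fst)).sub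
      (hf.comp (continuous_subtype_val.comp continuous_snd)))
  have hCU : ⋃ n, C n = univ := by
    rw [eq_univ_iff_forall]
    intro z
    obtain ⟨M, hMS, hM'⟩ := hS3 (G.sub_mem (hfG' z.1) (hfG' z.2))
    rw [hN] at hMS
    obtain ⟨n, rfl⟩ := hMS
    exact mem_iUnion.2 ⟨n, subset_closure hM'⟩
  obtain ⟨n, ⟨x, y⟩, hxy⟩ := nonempty_interior_of_iUnion_of_closed hC hCU
  obtain ⟨U1, hU1, U2, hU2, hU⟩ := mem_nhds_prod_iff.1 (mem_interior_iff_mem_nhds.1 hxy)
  obtain ⟨V1, hV1, hVU1⟩ := mem_nhds_subtype F x U1 |>.1 hU1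
  obtain ⟨V2, hV2, hVU2⟩ := mem_nhds_subtype F y U2 |>.1 hU2
  obtain ⟨W1, hW1, hWo1, hxW1⟩ := mem_nhds_iff.1 hV1
  obtain ⟨W2, hW2, hWo2, hyW2⟩ := mem_nhds_iff.1 hV2
  have hbig1 := hbig W1 hWo1 ⟨x, hxW1, x.2⟩
  have hbig2 := hbig W2 hWo2 ⟨y, hyW2, y.2⟩
  have hv1 : volume (closure (f '' (W1 ∩ F))) ≠ 0 := fun h => hbig1 (coverable_of_closure h)
  have hv2 : volume (closure (f '' (W2 ∩ F))) ≠ 0 := fun h => hbig2 (coverable_of_closure h)
  obtain ⟨O, hO, hOne, hOs⟩ := interior_sub isClosed_closure isClosed_closure hv1 hv2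
  have hclos : ∀ a ∈ closure (f '' (W1 ∩ F)), ∀ c ∈ closure (f '' (W2 ∩ F)),
      a - c ∈ closure (N n) := by
    intro a ha c hc
    have h1 := map_mem_closure₂ (f := fun a c : ℝ => a - c) (u := closure (N n)) continuous_sub
      ha hc ?_
    · rwa [closure_closure] at h1
    rintro _ ⟨a', ha', rfl⟩ _ ⟨c', hc', rfl⟩
    have h2 : ((⟨a', ha'.2⟩, ⟨c', hc'.2⟩) : F × F) ∈ C n :=
      hU (mk_mem_prod (hVU1 (hW1 ha'.1)) (hVU2 (hW2 hc'.1)))
    exact h2
  have hON : O ⊆ interior (closure (N n)) := by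
    refine interior_maximal ?_ hO
    intro u hu
    obtain ⟨a, ha, c, hc, rfl⟩ := hOs u hu
    exact hclos a ha c hc
  have := hNN n
  rw [IsNowhereDense] at this
  rw [this] at hON
  obtain ⟨u, hu⟩ := hOne
  exact hON hu

/-- The real line is not plastic. -/
theorem not_plastic_of_all (G : AddSubgroup ℝ) (hG : ∀ x : ℝ, x ∈ G) : ¬ Plastic G := by
  intro hP
  let f : G → G := fun x => ⟨(x : ℝ) / 2, hG _⟩
  have hbij : Function.Bijective f := by
    constructor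
    · intro x y hxy
      have h1 : (x : ℝ) / 2 = y / 2 := congrArg Subtype.val hxy
      exact Subtype.ext (by linarith)
    · intro y
      refine ⟨⟨2 * (y : ℝ), hG _⟩, Subtype.ext ?_⟩
      show 2 * (y : ℝ) / 2 = y
      ring
  have hd : ∀ x y : G, dist (f x) (f y) = dist x y / 2 := by
    intro x y
    rw [Subtype.dist_eq, Subtype.dist_eq, Real.dist_eq, Real.dist_eq]
    show |(x : ℝ) / 2 - y / 2| = |(x : ℝ) - y| / 2
    rw [← sub_div, abs_div, abs_of_pos (zero_lt_two' ℝ)]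
  have h1 := hP f hbij (fun x y => by rw [hd]; have := dist_nonneg (x := x) (y := y); linarith)
    ⟨0, hG 0⟩ ⟨1, hG 1⟩
  rw [hd, Subtype.dist_eq, Real.dist_eq] at h1
  norm_num at h1

/-- No dense analytic subgroup of the real line is plastic. -/
theorem not_plastic (G : AddSubgroup ℝ) (hG : Dense (G : Set ℝ)) (hA : AnalyticSet (G : Set ℝ)) :
    ¬ Plastic G := by
  by_cases hall : ∀ x : ℝ, x ∈ G
  · exact not_plastic_of_all G hall
  push Not at hall
  obtain ⟨t, ht⟩ := hall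
  obtain ⟨K, hK, hK0, hGK⟩ := coverable_of_meagre G hA (meagre_of_analytic G hG hA ht)
  obtain ⟨δ, hδG, hδ⟩ := hG.exists_mem_open isOpen_Ioo (nonempty_Ioo.2 (zero_lt_one' ℝ))
  obtain ⟨a, haG, ha⟩ := hG.exists_mem_open isOpen_Ioo (nonempty_Ioo.2 (one_lt_two : (1 : ℝ) < 2))
  let L : ℕ → Set ℝ := fun n => K n.unpair.1 ∩ Icc (-(n.unpair.2 : ℝ)) n.unpair.2
  have hL : ∀ n, IsCompact (L n) := fun n => isCompact_Icc.inter_left (hK _)
  have hL0 : ∀ n, volume (L n) = 0 := fun n => measure_mono_null inter_subset_left (hK0 _)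
  have hGL : ∀ x ∈ G, ∃ n, x ∈ L n := by
    intro x hx
    obtain ⟨k, hk⟩ := mem_iUnion.1 (hGK hx)
    obtain ⟨m, hm⟩ := exists_nat_ge |x|
    refine ⟨Nat.pair k m, ?_⟩
    simp only [L, Nat.unpair_pair]
    exact ⟨hk, abs_le.1 hm⟩
  obtain ⟨T, hT, hTG, hX, hY, h0, h1⟩ := exists_chain G hG L hL hL0 hδG hδ.1
    (hδ.2.trans ha.1)
  refine not_plastic_of_chain G T hT hTG (fun x hx => ?_) (fun y hy => ?_) G.zero_mem haG h0 h1
    (by linarith [ha.1]) hδ.1
  · obtain ⟨n, hn⟩ := hGL x hx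
    exact hX n x hn
  · obtain ⟨n, hn⟩ := hGL y hy
    exact hY n y hn

/-- The real line contains no dense analytic subgroup that is plastic. In particular some
separable normed space contains no dense analytic subgroup that is plastic. -/
theorem result :
    (∀ G : AddSubgroup ℝ, Dense (G : Set ℝ) → AnalyticSet (G : Set ℝ) → ¬ Plastic G) ∧
    ∃ (E : Type) (_ : NormedAddCommGroup E) (_ : NormedSpace ℝ E) (_ : SeparableSpace E),
      ∀ G : AddSubgroup E, Dense (G : Set E) → AnalyticSet (G : Set E) → ¬ Plastic G :=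
  ⟨not_plastic, ℝ, inferInstance, inferInstance, inferInstance, not_plastic⟩

end Pool.Agent.Results.MP_4fc6a2_gt.NotPlastic
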